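import Pool.Agent.H557.Dyadic

/-!
# Equidistribution of the parity of `p(n, k)` for almost all `k`

`p(n, k)` denotes the number of partitions of `n` all of whose parts are at most `k`, so that
`p(n, k) = p(n)` for `n ≤ k`.  We prove a truncated form of the Parkin-Shanks statement, uniformly
in blocks, residue classes and intervals, for all `k ∈ [K, 2K]` outside a sparse set:
every interval of `H + 1` consecutive integers contains at most
`C L W (1 + H ((L W)^2 log K / K)^(1/3))` exceptional `k`; in particular there are at most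
`O((L W)^(5/3) K^(2/3) (log K)^(1/3))` of them in `[K, 2K]`.

Idea of the proof.  For a prime `ℓ ∈ (k/2, k]` the parity of `p(n, k)` is the sum of a function of
`n mod ℓ` and of a function of period prime to `ℓ`; averaging over these independent pieces shows
that a bias can only occur when, for most `ℓ`, the first piece has very small support (up to
a constant).  If this happens for `k` and `k + h` with the same `ℓ`, then a sparse nonzero function
on `ZMod ℓ` is divisible by `∏_{i < h} (1 - X^(k+h-i))`, and in each of these `h` directions every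
point of its support has a partner, which is impossible when `h` exceeds the support size.
-/

namespace Pool.Agent.Results.MP_ebc808_nt.TruncatedParityAlmostAllK

/-- `p n k` is the number of partitions of `n` all of whose parts are at most `k`. -/
def p (n k : ℕ) : ℕ := (Nat.Partition.restricted n (· ≤ k)).card

/-- `count k q ρ D w x N` is the number of `n ∈ [x, x + N)` with `n ≡ ρ mod q` and
`p (n + d) k ≡ w d mod 2` for all `d ∈ D`. -/
def count (k q ρ : ℕ) (D : Finset ℕ) (w : ℕ → ZMod 2) (x N : ℕ) : ℕ :=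
  ((Finset.Ico x (x + N)).filter fun n =>
    n ≡ ρ [MOD q] ∧ ∀ d ∈ D, ((p (n + d) k : ℕ) : ZMod 2) = w d).card

theorem result : ∃ c C : ℝ, 0 < c ∧ 0 < C ∧ ∀ K L W : ℕ, 2 ≤ K → 1 ≤ L → 1 ≤ W →
    ∃ E : Finset ℕ,
      (∀ a H : ℕ, ((E ∩ Finset.Icc a (a + H)).card : ℝ) ≤
        C * ((L : ℝ) * W) * (1 + H * (((L : ℝ) * W) ^ 2 * Real.log K / K) ^ (1 / 3 : ℝ))) ∧
      ∀ k : ℕ, K ≤ k → k ≤ 2 * K → k ∉ E →
        ∀ q : ℕ, 1 ≤ q → Real.log q ≤ c * K →
          ∀ (ρ : ℕ) (D : Finset ℕ) (w : ℕ → ZMod 2), D.card ≤ L → (∀ d ∈ D, 5 * d ≤ K) →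
            ∀ x N : ℕ, (q : ℝ) * Real.exp (16 * K) ≤ N →
              |2 ^ D.card * q * ((count k q ρ D w x N : ℝ) / N) - 1| ≤
                2 ^ D.card * Real.exp (-(c * W / Real.log K)) := by
  obtain ⟨c, C, hc, hC, h⟩ := Pool.Agent.H557.dyadic_main
  refine ⟨c, C, hc, hC, ?_⟩
  intro K L W hK hL hW
  obtain ⟨E, hE1, hE2⟩ := h K L W hK hL hW
  refine ⟨E, hE1, ?_⟩
  intro k hk1 hk2 hkE q hq hlogq ρ D w hD1 hD2 x N hN
  exact hE2 k hk1 hk2 hkE q hq hlogq ρ D w hD1 hD2 x N hN

end Pool.Agent.Results.MP_ebc808_nt.TruncatedParityAlmostAllK
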